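import Pool.Agent.H433.EW.Main2

/-!
# The strong inequality of Lang and Silverman for all the hyperelliptic curves (all the curves of
# genus two) with almost squarefree discriminant, in every genus and over every number field

`MP_f5471b_nt` (Q1, a partial answer in every dimension `g`). We prove an explicit lower bound for
the canonical heights of all the points `P` with `2 P ≠ 0` on the Jacobian of EVERY hyperelliptic
curve over a number field `K`, and on all its quadratic twists. For `g = 2` these are ALL the curves
of genus two. No Weierstrass point and no point of order two is assumed to be rational. The bound is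
the inequality of Q1 as soon as the discriminant of a binary form which defines the curve is almost
squarefree; this is true for 100 per cent of the binary forms of degree `2 g + 2`.

The curves. Every double cover of genus `g` of the projective line over `K` (for `g = 2`: every curve
of genus two) has an equation `y ^ 2 = f(x)` with `f ∈ O_K[x]` of degree `2 g + 2` (a rational point
of the projective line which is not a branch point is moved to infinity) and with the discriminant
`D = f.discr ≠ 0`. Let `L` be the splitting
field of `f` and let `r_0, ..., r_{2 g + 1}` be the zeros of `f`. `J_d` is the Jacobian of the curve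
`d y ^ 2 = f(x)`. Over `L` the last zero can be moved to infinity: up to a twist, this is the curve
`y ^ 2 = ∏ (x - b_i)` with `b_i = 1 / (r_i - r_{2 g + 1})`, `i = 0, ..., 2 g` (`bc r`).

The heights. For all archimedean places `w` of `L` let `m_i(w) > 0` be real numbers with
`|r_i - r_j|_w ≤ m_i(w) m_j(w)`, and let `h_i = hm r m i` be the sum of the
`[L_w : ℝ] log m_i(w)` over these `w` and of the `log max(1, |r_i|_w)` over the finite places `w` of
`L`. Examples:
(1) `m_i(w) = √2 max(1, |r_i|_w)`. Then `h_i = [L : ℚ] (h(r_i) + 1 / 2 log 2)` with the absolute
logarithmic Weil height `h(r_i)`, and by the lemma of Gauss the sum of the `h_i` is `[L : K] H` with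
`H = ∑_{v ∣ ∞} [K_v : ℝ] log M_v(f) - log N(c) + (g + 1) log 2 [K : ℚ]`, for the Mahler measures
`M_v(f)` and the content `c` of `f`. If `f` is irreducible, then all the `h_i` are equal.
(2) More generally `m_i(w)` can be the norm of the vector `(r_i, 1)` for a hermitian form of
determinant `1`: the bound below does not change if `f` is replaced by an equivalent binary form.
(3) Let `f_0 ∈ O_K[x]` be monic of degree `2 g + 1` with the zeros `a_i`, `|a_i - a_j|_w ≤ M_v` for
`w ∣ v`, and `f(x) = x ^ {2 g + 2} f_0(t + 1 / x)`, `f_0(t) ≠ 0`. The zeros of `f` are the
`1 / (a_i - t)` and `r_{2 g + 1} = 0`, `f` and `f_0` have the same discriminant,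
`m_i = |r_i| √M`, `m_{2 g + 1} = 1 / √M` are allowed, and for `s = ∑_v [K_v : ℝ] log M_v` we have
`∑ h_i = g [L : K] s` and `h_i + h_j = [L : K] s` for `i, j ≤ 2 g`.

The points. The sets `S ∈ Sp g` with `g + 1` elements correspond to the theta characteristics which
do not vanish at the origin; let `θ_S` be the theta function. Let `E` be a finite extension of `L`.
A point `P` of `J_d(E)` has the coordinates `x S = θ_S(z) ^ 2 / θ_S(0) ^ 2` on the Kummer variety,
which do not depend on `d`. The origin has the coordinates `x S = 1` (`Origin`). There are linear
relations between the `x S` (`Linear`), and `Double` is the duplication formula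
`2 ^ g θ_S(z) ^ 4 = ∑_R ± θ_R(2 z) θ_R(0) ^ 3` with Thomae's formula
`θ_S(0) ^ 4 = ± c / ∏_{i ∈ S, j ∉ S} (b_i - b_j)`. `Orbit b X` says that `X n` is a vector of
coordinates of `2 ^ n P` for all `n`. `hhat X` is the canonical height of `P` for the line bundle
`2 Θ`, multiplied by `[E : ℚ]`. The height of the vector of the `1 / rs b S` is
`2 [L : ℚ] h_F(J)`, up to `O(log)`, for the stable Faltings height `h_F(J)`. (This dictionary is not
used in the proof.)

The theorem. Let `Δ₁ = once D` be the sum of the `log N v` for the primes `v` of `K` which divide `D`
exactly once. The height of the vector of the `1 / rs b S` is at most `g ∑ h_i`. For all the finite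
extensions `E` of `L`, for all `d ∈ E`, for all `P ∈ J_d(E)` with `2 P ≠ 0` there are indices
`i < j ≤ 2 g` such that for all the finite sets `S` of places of `E` with `2 P ≡ 0` modulo `v`:

`4 ĥ(P) ≥ [E : L] (3 / 4 ([L : K] Δ₁ - 2 (2 g + 1) ∑ h_k) + h_i + h_j - 4 g [L : ℚ])
  + ∑_{v ∈ S} log (N v) - log N(d)`,

where `d` is the part of the different of `E / L` composed of the primes dividing `D` (`ldd`). If
one of the `k`-fold differences of the coordinates of `2 P` (`dl`) is not zero, then `h_i + h_j` can
be replaced by the sum of the heights for the `k` disjoint pairs.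

So for instance let `θ > 0`, let `f` be irreducible over `K`, and suppose that

`Δ₁ ≥ (2 (2 g + 1) - 4 / (3 (g + 1)) + θ) H`                                              (*)

with `H` as in (1). Then we have `ĥ(P) ≥ [E : K] (3 θ / 16 H - g [K : ℚ])` for all `P ∈ J_d(F)` with
`2 P ≠ 0`, for all `d ∈ F` and for ALL the finite extensions `F` of `K` which are unramified at the
primes dividing `D`, with `E = F L`: this is the alternative (b) of Q1, with
`[K : ℚ] h_F(J_d / K) ≤ g / 2 H + O(log H)` plus the contribution of the places where `J_d` has
additive reduction. If such a place `v` does not divide `2 D`, then `2 P ≡ 0` modulo all the places of `L`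
over `v` for all `P ∈ J_d(K)`, so this contribution is controlled by the sum over `S`; the
contribution of the other ones is at most `g / 2 (log N(D) + O(1))`. The alternative (a) of Q1 is
`2 P = 0`. In particular the torsion subgroup of `J_d(F)` is contained in `J_d[2]` for all these `F`
and `d` if `3 θ H > 16 g [K : ℚ]`; if the Galois group of `f` is `S_{2 g + 2}`, then the torsion
subgroup of `J_d(K)` is trivial, `End(J_d) = ℤ` (Zarhin, `g ≥ 2`) and every ample symmetric line
bundle has the same canonical height as a multiple of `Θ`.

The condition (*). By Mahler's inequality `log N(D / c ^ {4 g + 2}) ≤ 2 (2 g + 1) H`. (*) holds with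
every `θ < 4 / (3 (g + 1))` for 100 per cent of the polynomials of degree `2 g + 2` over `ℤ`,
ordered by the size of the coefficients, by the theorem of Bhargava, Shankar and Wang on squarefree
values of discriminants of binary forms. In the case of the example (3) this is the condition
`Δ₁ ≥ (2 g (2 g + 1) - 4 / 3 + θ) s`, true for 100 per cent of the monic polynomials of odd degree,
ordered by the size of the zeros.

The proof. At a place `w` of `L` over a prime `v` which divides `D` exactly once exactly two of the
branch points are congruent, and their chordal distance is the absolute value of a uniformiser: the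
product of the minors of the points lies in the different of `L / K`, up to the content, so that the
ramification index `e` satisfies `e - 1 ≤ e / 2`. This is combined with local lower bounds for
vectors of coordinates in all the components of the reduction with one node.
-/

set_option autoImplicit false

open NumberField IsDedekindDomain Finset Polynomial Filter Topology

namespace Pool.Agent.Results.MP_f5471b_nt.AllHyperellipticCurves

open Pool.Agent.H433.AC Pool.Agent.H433.HG Pool.Agent.H433.HD
open Pool.Agent.H433.EW.Poly (bc hm hml)

/-- An explicit lower bound for the canonical heights of the points `P` with `2 P ≠ 0` on the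
Jacobians of all the hyperelliptic curves `d y ^ 2 = f(x)`, `f` of degree `2 g + 2` with integral
coefficients in a number field, in terms of the primes which divide the discriminant of `f` exactly
once. -/
theorem result (g : ℕ) (hg : 1 ≤ g) (K L : Type) [Field K] [NumberField K] [Field L]
    [NumberField L] [Algebra K L] (f : (𝓞 K)[X]) (hn : f.natDegree = 2 * g + 2)
    [IsSplittingField K L (f.map (algebraMap (𝓞 K) K))] (hD : f.discr ≠ 0)
    (r : Fin (2 * g + 2) → L)
    (hf : f.map (algebraMap (𝓞 K) L) =
      C (algebraMap (𝓞 K) L f.leadingCoeff) * ∏ i, (X - C (r i)))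
    (m : Fin (2 * g + 2) → InfinitePlace L → ℝ) (hm0 : ∀ i w, 0 < m i w)
    (hm1 : ∀ w i j, w (r i - r j) ≤ m i w * m j w) :
    Function.Injective r ∧ Function.Injective (bc r) ∧
    ht (fun S => (rs (bc r) S)⁻¹) ≤ g * ∑ k, hm r m k ∧
    ∀ (E : Type) [Field E] [NumberField E] [Algebra L E],
      ∀ X : ℕ → Finset (Fin (2 * g + 1)) → E, Orbit (fun i => algebraMap L E (bc r i)) X →
        Tendsto (fun n : ℕ => ht (X n) / 4 ^ n) atTop (𝓝 (hhat X)) ∧
        (Origin (X 1) ∨ ∃ i j : Fin (2 * g + 1), i < j ∧
          ∀ S : Finset (HeightOneSpectrum (𝓞 E)), (∀ v ∈ S, Zero (X 1) v) →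
          Module.finrank L E * (3 / 4 * (Module.finrank K L * once f.discr -
            2 * (2 * g + 1) * ∑ k, hm r m k +
            4 / 3 * (hm r m i.castSucc + hm r m j.castSucc)) -
            4 * g * Module.finrank ℚ L) + ∑ v ∈ S, Real.log (nv v) -
            ldd L E (algebraMap (𝓞 L) (𝓞 E) (algebraMap (𝓞 K) (𝓞 L) f.discr)) ≤
            4 * hhat X) ∧
        ∀ l B, l ≠ [] → Apart l B → dl (X 1) l B ≠ 0 →
          ∀ S : Finset (HeightOneSpectrum (𝓞 E)), (∀ v ∈ S, Zero (X 1) v) →
          Module.finrank L E * (3 / 4 * (Module.finrank K L * once f.discr -
            2 * (2 * g + 1) * ∑ k, hm r m k + 4 / 3 * hml r m l) -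
            4 * g * Module.finrank ℚ L) + ∑ v ∈ S, Real.log (nv v) -
            ldd L E (algebraMap (𝓞 L) (𝓞 E) (algebraMap (𝓞 K) (𝓞 L) f.discr)) ≤
            4 * hhat X :=
  Pool.Agent.H433.EW.poly_b g hg K L f hn hD r hf m hm0 hm1

end Pool.Agent.Results.MP_f5471b_nt.AllHyperellipticCurves
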