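import Pool.Agent.H433.GT.Main

/-!
# The strong inequality of Lang and Silverman for almost all Jacobians of curves of genus two with
# rational Weierstrass points

`MP_f5471b_nt` (Q1, a partial answer). We prove the inequality of Q1, with explicit constants, for
almost all (with a power saving) curves of genus two over a number field `K` whose Weierstrass
points are rational, for all the quadratic twists of the Jacobians at once, and for all their
`K`-rational points which are not of order two.

The curves. `a = (a_0, ..., a_4)` are integers of `K` of size at most `H`, and `J_d` is the
Jacobian of the curve `d y ^ 2 = (x - a_0) (x - a_1) (x - a_2) (x - a_3) (x - a_4)`, `d ≠ 0` in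
`K`. Every curve of genus two with rational Weierstrass points has such a model, with a rational
Weierstrass point at infinity.

The points. The class `P` of `(x₁, y₁) + (x₂, y₂) - 2 ∞` has the image
`(1, x₁ + x₂, x₁ x₂, (F₀ - 2 d y₁ y₂) / (x₁ - x₂) ^ 2)` on the Kummer surface (Cassels and Flynn),
which does not depend on `d`; its equation is `Kummer a x`. The origin has the image
`(0, 0, 0, 1)`. The `K`-rational points of the Kummer surface are the points `± P`, where `P` is
a `K`-rational point of one of the `J_d` (or of order two). The six branch points
`a_0, ..., a_4, ∞` can be divided in two sets with three elements in ten ways; for each of these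
partitions there are a linear form `L a s` and a quadratic form `Q a s` with
`L a s (2 P) = Q a s (P) ^ 2`, up to a common factor; these ten identities determine `2 P`.
`Orbit a X` says that `X n` is a vector of coordinates of `2 ^ n P` for all `n`. `hhat X` is the
canonical height of `P` for the line bundle `2 Θ`, relative to `K` (i.e. multiplied by
`[K : ℚ]`); we also prove that the limit exists. The case `X 1 b = 0` for all `b ≠ 3` is the case
`2 P = 0`.

The height of the Jacobian. The ten numbers `W a s` are the fourth powers of the ten even theta
constants, up to a common factor (Thomae), so `hm a`, the height of the vector `W a`, is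
`2 [K : ℚ] h_F(J)`, up to `O(log)`, for the stable Faltings height `h_F(J)` (the theta constants
have weight `1 / 2`). We prove that `hm a` is `4 [K : ℚ] log H`, up to `ε [K : ℚ] log H`. If `v`
does not divide `2`, then `J_d` has, over the ramified quadratic extension of the completion,
semistable reduction; so its local contribution to the difference of the relative and of the stable
Faltings height is `0` or `log (N v)`. If it is `log (N v)` and no two of the branch points coincide
modulo `v`, then `2 P` is congruent to the origin modulo `v` for all `P ∈ J_d(K)`
(`Zero (X 1) v`). The product of the `N v` over the other places is at most the norm of the product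
of the ten differences of the `a_i`, that is at most `10 [K : ℚ] log H` after taking logarithms.
Hence `[K : ℚ] h_F(J_d / K)` is at most `3 hm a + ∑_v log (N v)`, up to `ε hm a + O(1)`, where `v`
runs over the places with `Zero (X 1) v`. (This dictionary is not used in the proof.)

The theorem. For all but `C H ^ (-δ)` of the vectors `a` we have, for all `d`, for all
`P ∈ J_d(K)` with `2 P ≠ 0`, and for all the finite sets `S` of places with `2 P ≡ 0` modulo `v`:
`ĥ(P) ≥ (1 / 8 - ε) hm a + 1 / 4 ∑ log (N v)`, and
`ĥ(P) ≥ (3 / 16 - ε) hm a + 1 / 4 ∑ log (N v)` if `2 P` is not on the theta divisor.
In particular `ĥ(P) ≥ (1 / 24 - ε) [K : ℚ] h_F(J_d / K) - O(1)`, and the points of finite order in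
`J_d(K)` are of order two, for all `d`.

The relation with Q1. For almost all `a` the ring `End(J_d)` is `ℤ`, `J_d` is simple and every
ample symmetric line bundle has the same canonical height as a multiple `n Θ`, `n ≥ 1`. So for
these Jacobians and their twists the alternative (a) of Q1 holds with `B = 0` (and the order at most
two) if `2 P = 0`, and the alternative (b) holds for all the other points.
-/

set_option autoImplicit false

open NumberField Finset

namespace Pool.Agent.Results.MP_f5471b_nt.GenusTwoCurves

open Pool.Agent.H433.AC Pool.Agent.H433.GT

open Classical in
/-- The inequality of Lang and Silverman, with explicit constants, for the Jacobians of almost all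
curves of genus two with rational Weierstrass points and for all their quadratic twists. -/
theorem result (K : Type) [Field K] [NumberField K] {ε : ℝ} (hε : 0 < ε) : ∃ C δ : ℝ, 0 < δ ∧
    ∀ H : ℕ, 1 ≤ H →
      (((Fintype.piFinset fun _ : Fin 5 => box K H).filter fun a =>
        ¬ LangSilverman ε H a).card : ℝ) ≤
          C * (H : ℝ) ^ (-δ) * ((Fintype.piFinset fun _ : Fin 5 => box K H).card : ℝ) :=
  main K hε

end Pool.Agent.Results.MP_f5471b_nt.GenusTwoCurves
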