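import Pool.Agent.H433.CQ.Main2

/-!
# The strong inequality of Lang and Silverman for 100 per cent of the curves `y ^ 2 = φ(x) - t`, for
# all the polynomials `φ` of degree `2 g + 2` with rational critical points, over every number field:
# generic hyperelliptic curves, generic curves of genus two

`MP_f5471b_nt` (Q1, a partial answer in every dimension `g`). Let `K` be any number field. For all
the monic polynomials `φ` of degree `2 g + 2` with integral coefficients and rational critical points
(of bounded size) we prove the strong inequality of Lang and Silverman, with explicit constants, for
the Jacobians of 100 per cent of the curves `y ^ 2 = φ(x) - t` (with a power saving for the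
exceptional `t`, uniformly in `φ`), and for all their quadratic twists, over all the finite
extensions of `K`. The Weierstrass points of these curves are conjugate, with the Galois group
`S_{2 g + 2}`, for 100 per cent of the `t`, and the pairs `(φ, t)` are a finite cover of the space of
all the monic polynomials of degree `2 g + 2`: for `g = 2` this is a theorem about generic principally
polarised abelian surfaces. (`MP_9a3c31_nt`, RationalCriticalPoints is about the polynomials `φ` of
degree `2 g + 1`, where the curve has one rational Weierstrass point; the two families are disjoint.
In `MP_f5471b_nt`, AllHyperellipticCurves the curves are arbitrary, and there is an assumption for the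
discriminant, which is proved here for almost all `t`, over every number field.)

The curves. `φ ∈ O_K[x]` is monic of degree `2 g + 2`, its derivative is
`(2 g + 2) (x - c_0) ... (x - c_{2 g})` with `c_i ∈ O_K`, the critical values `φ(c_i)` are different,
and for all the embeddings of `K` in `ℂ` we have `|c_i| ^ (2 g + 2) ≤ A T` and `|φ(0)| ≤ A T`
(`Crit (2 g + 1) A T φ c`). Examples: every `φ` with rational critical points and different critical
values if `T ≥ T_0(φ)`; or all the `φ` with `φ(0) = 0` and with `c_i ∈ (2 g + 1)! O_K`,
`|c_i| ≤ (A T) ^ {1 / (2 g + 2)}` and with different critical values. `t` is in the box of the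
elements of `O_K` whose coordinates in an integral basis are at most `T` (`box K T`). The map
`(c, t) ↦ φ - t`, `φ(0) = 0`, from the space of dimension `2 g + 2` to the space of all the monic
polynomials of degree `2 g + 2` is finite and surjective (over `K̄`), so we obtain a Zariski dense set
of points of the moduli space of ALL the hyperelliptic curves of genus `g`, for `g = 2` of all the
principally polarised abelian surfaces. For 100 per cent of the `t` the Galois group of `φ(x) - t` is
`S_{2 g + 2}`, since the geometric monodromy group of a polynomial with different critical values is
generated by transpositions; then the Jacobian has `End = ℤ` (Zarhin, `g ≥ 2`), and all the points of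
infinite order generate a Zariski dense subgroup.

The notation. `f = φ - t`, `D = f.discr`, `ℓ = [K : ℚ] log T`. `L` is the splitting field of `f`, and
`r_0, ..., r_{2 g + 1}` are the zeros. `J_d` is the Jacobian of the curve `d y ^ 2 = f(x)`. Over `L`
the last zero can be moved to infinity: up to a twist, this is the curve `y ^ 2 = ∏ (x - b_i)` with
`b_i = 1 / (r_i - r_{2 g + 1})`, `i = 0, ..., 2 g` (`bc r`).

The points. The sets `S ∈ Sp g` with `g + 1` elements correspond to the theta characteristics which
do not vanish at the origin; let `θ_S` be the theta function. Let `E` be a finite extension of `L`.
A point `P` of `J_d(E)` has the coordinates `x S = θ_S(z) ^ 2 / θ_S(0) ^ 2` on the Kummer variety,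
which do not depend on `d`. The origin has the coordinates `x S = 1` (`Origin`). There are linear
relations between the `x S` (`Linear`), and `Double` is the duplication formula
`2 ^ g θ_S(z) ^ 4 = ∑_R ± θ_R(2 z) θ_R(0) ^ 3` with Thomae's formula
`θ_S(0) ^ 4 = ± c / ∏_{i ∈ S, j ∉ S} (b_i - b_j)`. `Orbit b X` says that `X n` is a vector of
coordinates of `2 ^ n P` for all `n`. `hhat X` is the canonical height of `P` for the line bundle
`2 Θ`, multiplied by `[E : ℚ]`. The height of the vector of the `1 / rs b S` is
`2 [L : ℚ] h_F(J)`, up to `O(log)`, for the stable Faltings height `h_F(J)`.

The components. Let `w` be a prime of `E` over a prime `v` of `K` which divides `D` exactly once (and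
does not divide `2`). The reduction of the curve has exactly one node. `P` lies in the identity
component of the Néron model over `E_w(√d)` if and only if, for the two zeros which coincide modulo
`w`, the maximum of the `|x S|_w` is taken for a set `S` which separates them (`Ident`). If the
difference of these zeros is a uniformiser at `w` (`Thin`, for instance if `E / L` is unramified at
`w`), then the group of components has the order two. `Comp f r X n` says that for all these `w` the
point `2 ^ n P` lies in the identity component, or `w` is thin and `n ≥ 1`. (This dictionary is not
used in the proof.)

The theorem. Let `A ≥ 1` and `ε > 0`. There are `C` and `δ > 0`, which depend on `g`, `K`, `A`, `ε`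
only, such that for all `T ≥ 1` and for all `φ` with `Crit (2 g + 1) A T φ c` the following is true
for all but `C T ^ (-δ) #(box K T)` of the `t ∈ box K T` (`LangSilverman g ε T (φ - t)`). `D ≠ 0`. The
height of the vector of the `1 / rs b S` is at most `[L : K] (g / 2 + ε) ℓ`; so
`h_F(J) ≤ (g / 4 + ε) log T`. For all the finite extensions `E / L`, for all `d`, for all
`P ∈ J_d(E)`:

(1) if `2 P ≠ 0`, then for all the finite sets `S` of primes of `E` with `2 P ≡ 0` modulo `v`

`ĥ(P) ≥ [E : K] (1 / (8 (g + 1)) - ε) ℓ + 1 / 4 ∑_{v ∈ S} log (N v) - 1 / 4 log N(d)`,

where `d` is the part of the different of `E / L` composed of the primes dividing `D` (`ldd`; it is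
`0` for `E = F L`, if the finite extension `F / K` is unramified at the primes dividing `D`, for
instance `F = K`);

(2) if `2 ^ n P ≠ 0` and `Comp f r X n` (no condition for the degree and the ramification of
`E / L`), then for all the finite sets `S` of primes of `E` with `2 ^ n P ≡ 0` modulo `v`

`4 ^ n ĥ(P) ≥ [E : K] (1 / (2 (g + 1)) - ε) ℓ + ∑_{v ∈ S} log (N v)`.

If one of the `k`-fold differences of the coordinates of `2 P` (or of `2 ^ n P`) is not zero (`dl`),
then the constants `1 / (8 (g + 1))` and `1 / (2 (g + 1))` can be multiplied by `k ≤ g`.

Consequences for Q1. For 100 per cent of the curves, for all the finite extensions `F / K` which are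
unramified at the primes dividing `D`, for all `d ∈ F` and for all the points `P ∈ J_d(F)`: `2 P = 0`
(this is the alternative (a) with `B = 0`), or the absolute canonical height of `P` for `2 Θ` is at
least `(1 / (8 (g + 1)) - ε) log T ≥ (1 / (2 g (g + 1)) - ε') h_F(J)`. This is the alternative (b) of
Q1 if the twist by `d` is unramified outside of the primes dividing `D`, and the sum over `S` is the
contribution of the places of additive reduction of the other twists: if such a place `v` does not
divide `2 D`, then `2 P ≡ 0` modulo all the places over `v` for all `P ∈ J_d(K)`.

The proof. `D = ± (2 g + 2) ^ (2 g + 2) ∏ (t - φ(c_i))`. For all but `C T ^ (-δ) #(box K T)` of the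
`t` the numbers `t - φ(c_i)` are almost coprime, almost squarefree and not small at all the
archimedean places, so that the primes dividing `D` exactly once have a product of norm at least
`T ^ ((2 g + 1) [K : ℚ] - η)`; and the zeros of `f` have the absolute value at most
`B T ^ {1 / (2 g + 2)}`. So the discriminant is of the maximal size for the size of the zeros, and
almost all of it comes from the primes where the reduction has exactly one node. This is combined
with the lower bounds for the heights in terms of these primes (`EW.poly_a`, `EW.poly_b`). The lemmas
of the counting were proved by helper51, helper80, helper115 and helper163.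
-/

set_option autoImplicit false

open NumberField IsDedekindDomain Finset Polynomial Filter Topology

namespace Pool.Agent.Results.MP_f5471b_nt.RationalCriticalPoints

open Pool.Agent.H433 Pool.Agent.H433.AC
open Pool.Agent.H433.CQ (Crit)

open Classical in
/-- The inequality of Lang and Silverman, with explicit constants, for the Jacobians of almost all
the curves `y ^ 2 = φ(x) - t`, uniformly for all the polynomials `φ` of degree `2 g + 2` with rational
critical points, for all their quadratic twists and over all the finite extensions of `K`. -/
theorem result (g : ℕ) (hg : 1 ≤ g) (K : Type) [Field K] [NumberField K] (A : ℝ) (hA : 1 ≤ A)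
    (ε : ℝ) (hε : 0 < ε) :
    ∃ C δ : ℝ, 0 < δ ∧ ∀ T : ℕ, 1 ≤ T → ∀ (φ : (𝓞 K)[X]) (c : Fin (2 * g + 1) → 𝓞 K),
      Crit (2 * g + 1) A T φ c →
        (((box K T).filter fun t => ¬ CQ.LangSilverman g ε T (φ - Polynomial.C t)).card : ℝ) ≤
          C * (T : ℝ) ^ (-δ) * (box K T).card :=
  Pool.Agent.H433.CQ.main_ls g hg K hA hε

end Pool.Agent.Results.MP_f5471b_nt.RationalCriticalPoints
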